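import Pool.Agent.Q247.CG.Sum
import Pool.Agent.Q24.CD.Lin

set_option autoImplicit false

/-!
# Project CG: `S_LinG`, `S_FormG`, `S_LimLG` (port of helper24's `Q24/CD/Lin.lean` to zero data)
-/

open Polynomial Filter Topology Finset MeasureTheory
open scoped ComplexConjugate

namespace Pool.Agent.Q247.CG

open Pool.Agent.Y23 (TT Fa N2 N2_nonneg plancherel)
open Pool.Agent.Y23.G Pool.Agent.Q240.CD Pool.Agent.Q240.CG

variable [D : ZD]

theorem linG (hZ : S_SumGG) (hI : S_Inty) : S_LinG := by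
  intro D a n ha
  have hsum := fun p hp => (hZ (D := D)).2.2.2 a n p ha hp
  have hint := (hI a n ha).2
  refine ⟨∑ k ∈ range (4 * n + 1), (LG a n (X ^ k)) • Polynomial.lcoeff ℝ k,
    ∑ k ∈ range (4 * n + 1), (OZ a n (X ^ k)) • Polynomial.lcoeff ℝ k, fun p hp => ⟨?_, ?_⟩⟩
  · simp only [LinearMap.coe_sum, Finset.sum_apply, LinearMap.smul_apply, Polynomial.lcoeff_apply, smul_eq_mul]
    have e1 : ∀ k ∈ range (4 * n + 1), LG a n (X ^ k) * p.coeff k =
        ∑' ρ : Zt, p.coeff k * ((mu ρ : ℝ) * (aeval (zg ρ) (X ^ k : ℝ[X]) * Sp a n (zg ρ) ^ 2).re) := by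
      intro k _
      rw [tsum_mul_left, mul_comm]
      rfl
    rw [Finset.sum_congr rfl e1, ← Summable.tsum_finsetSum]
    · unfold LG
      refine tsum_congr fun ρ => ?_
      rw [Q24.CD.aeval_term p _ hp, Finset.mul_sum]
      exact Finset.sum_congr rfl fun k _ => by ring
    · intro k hk
      rw [Finset.mem_range] at hk
      refine (hsum (X ^ k) ?_).mul_left _
      rw [Polynomial.natDegree_X_pow]; omega
  · simp only [LinearMap.coe_sum, Finset.sum_apply, LinearMap.smul_apply, Polynomial.lcoeff_apply, smul_eq_mul]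
    have hik : ∀ k ∈ range (4 * n + 1), Integrable fun x : ℝ => p.coeff k * ((X ^ k : ℝ[X]).eval x * Sr a n x ^ 2) := by
      intro k hk
      rw [Finset.mem_range] at hk
      refine (hint (X ^ k) ?_).const_mul _
      rw [Polynomial.natDegree_X_pow]; omega
    have e2 : ∫ x : ℝ, p.eval x * Sr a n x ^ 2 =
        ∑ k ∈ range (4 * n + 1), ∫ x : ℝ, p.coeff k * ((X ^ k : ℝ[X]).eval x * Sr a n x ^ 2) := by
      rw [← integral_finsetSum _ hik]
      refine integral_congr_ae (Eventually.of_forall fun x => ?_)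
      simp only
      rw [Polynomial.eval_eq_sum_range' (Nat.lt_succ_of_le hp), Finset.sum_mul]
      refine Finset.sum_congr rfl fun k _ => ?_
      rw [Polynomial.eval_pow, Polynomial.eval_X]; ring
    unfold OZ
    rw [e2, Finset.mul_sum]
    refine Finset.sum_congr rfl fun k _ => ?_
    rw [integral_const_mul]; ring

/-- the product of the transforms at a zero -/
lemma GG_zero (hB : S_SpB) {a : ℝ} {n : ℕ} {f : ℝ → ℂ} {A B : ℝ[X]}
    (h : ∀ z : ℂ, TT f (Complex.I * z) = (aeval z A + Complex.I * aeval z B) * Sp a n z) (z : ℂ) :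
    Y23.G.GG f f (Complex.I * z) = (aeval z (A * A) + aeval z (B * B)) * Sp a n z ^ 2 := by
  have h1 := (hB a n).2.2.2.2.2.1
  unfold Y23.G.GG
  have e : -conj (Complex.I * z) = Complex.I * conj z := by
    rw [map_mul, Complex.conj_I]; ring
  rw [e, h z, h (conj z), map_mul, map_add, map_mul, Complex.conj_I, Q24.CD.aeval_conj', Q24.CD.aeval_conj', h1, Complex.conj_conj,
    map_mul, map_mul]
  have hI := Complex.I_sq
  linear_combination (-(aeval z B) ^ 2 * Sp a n z ^ 2) * hI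

theorem formG (hB : S_SpB) (hZ : S_SumGG) (hI : S_Inty) : S_FormG := by
  intro D a n f A B ha hf hA hB' h
  have hAA : (A * A).natDegree ≤ 4 * n := (Polynomial.natDegree_mul_le).trans (by omega)
  have hBB : (B * B).natDegree ≤ 4 * n := (Polynomial.natDegree_mul_le).trans (by omega)
  refine ⟨?_, ?_⟩
  · unfold QQ LG
    rw [← Summable.tsum_add ((hZ (D := D)).2.2.2 a n _ ha hAA) ((hZ (D := D)).2.2.2 a n _ ha hBB)]
    refine tsum_congr fun ρ => ?_
    rw [← I_zg, GG_zero hB h, add_mul, Complex.add_re]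
    ring
  · have hp := plancherel hf.1
    have e : ∀ v : ℝ, ‖TT f (v * Complex.I)‖ ^ 2 = (A * A).eval v * Sr a n v ^ 2 + (B * B).eval v * Sr a n v ^ 2 := by
      intro v
      have h1 := (hB a n).2.2.2.1 v
      have h2 : ∀ p : ℝ[X], aeval (v : ℂ) p = ((p.eval v : ℝ) : ℂ) := by
        intro p
        have := Polynomial.aeval_algebraMap_apply ℂ v p
        simpa using this
      rw [mul_comm, h, h1, h2, h2, norm_mul, mul_pow, ← Complex.normSq_eq_norm_sq, ← Complex.normSq_eq_norm_sq,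
        mul_comm Complex.I, Complex.normSq_add_mul_I, Complex.normSq_ofReal, Polynomial.eval_mul, Polynomial.eval_mul]
      ring
    have hi1 := (hI a n ha).2 _ hAA
    have hi2 := (hI a n ha).2 _ hBB
    have e2 : ∫ v : ℝ, ‖TT f (v * Complex.I)‖ ^ 2 =
        (∫ v : ℝ, (A * A).eval v * Sr a n v ^ 2) + ∫ v : ℝ, (B * B).eval v * Sr a n v ^ 2 := by
      rw [← integral_add hi1 hi2]
      exact integral_congr_ae (Eventually.of_forall fun v => e v)
    rw [e2] at hp
    unfold OZ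
    have hpi := Real.pi_pos
    rw [← mul_add, hp]
    field_simp

theorem limLG (hS : S_LimSum1) (hZ : S_SumGG) : S_LimLG := by
  intro D n κ hκ hn p
  have h := hS n κ hκ hn (β := Zt) (fun ρ => (mu ρ : ℝ)) zg (fun ρ => Nat.cast_nonneg _) (hZ (D := D)).2.2.1 (hZ (D := D)).2.1
    (p.map (algebraMap ℝ ℂ))
  obtain ⟨h1, h2, h3⟩ := h
  have key : ∀ (s : ℂ → ℂ), (Summable fun ρ : Zt => (((mu ρ : ℕ) : ℝ) : ℂ) * ((p.map (algebraMap ℝ ℂ)).eval (zg ρ) * s (zg ρ))) →
      (∑' ρ : Zt, (((mu ρ : ℕ) : ℝ) : ℂ) * ((p.map (algebraMap ℝ ℂ)).eval (zg ρ) * s (zg ρ))).re =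
        ∑' ρ : Zt, (mu ρ : ℝ) * (aeval (zg ρ) p * s (zg ρ)).re := by
    intro s hs
    rw [Complex.re_tsum hs]
    refine tsum_congr fun ρ => ?_
    rw [Complex.re_ofReal_mul, Polynomial.eval_map_algebraMap]
  have e2 := key (fun z => Complex.exp (-(2 * ck κ * z ^ 2))) h2
  have h4 : Tendsto (fun a : ℝ => (∑' ρ : Zt, (((mu ρ : ℕ) : ℝ) : ℂ) * ((p.map (algebraMap ℝ ℂ)).eval (zg ρ) *
      Sp a (n a) (zg ρ) ^ 2)).re) atTop (𝓝 (LJ κ p)) := by
    have := (Complex.continuous_re.tendsto _).comp h3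
    rw [e2] at this
    exact this
  refine h4.congr' ?_
  filter_upwards [h1] with a ha
  exact key (fun z => Sp a (n a) z ^ 2) ha

end Pool.Agent.Q247.CG
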