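import Pool.Agent.Q247.CG.Sum
import Pool.Agent.Q24.CD.PosZ

set_option autoImplicit false

/-!
# Project CG: `S_PosG` (port of helper24's `Q24/CD/PosZ.lean` to zero data)
-/

open Filter Topology MeasureTheory
open scoped ComplexConjugate

namespace Pool.Agent.Q247.CG

open Pool.Agent.Y23 (TT Fa N2 N2_nonneg plancherel differentiable_TT)
open Pool.Agent.Y23.G Pool.Agent.Q240.CD Pool.Agent.Q240.CG

variable [D : ZD]

/-- on the critical line the terms of the form are squares -/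
lemma GG_crit (hRH : ∀ ρ : Zt, (ρ : ℂ).re = 1 / 2) (f : ℝ → ℂ) (ρ : Zt) :
    (GG f f ((ρ : ℂ) - 1 / 2)).re = ‖TT f ((ρ : ℂ) - 1 / 2)‖ ^ 2 := by
  have e : (ρ : ℂ) - 1 / 2 = (⟨0, (ρ : ℂ).im⟩ : ℂ) := by
    apply Complex.ext
    · have := hRH ρ
      simp [this]
    · simp
  have e2 : (⟨0, (ρ : ℂ).im⟩ : ℂ) = (((ρ : ℂ).im : ℝ) : ℂ) * Complex.I := by
    apply Complex.ext <;> simp
  rw [e, GG_line, Complex.ofReal_re, ← e2]

lemma QQ_crit (hRH : ∀ ρ : Zt, (ρ : ℂ).re = 1 / 2) (f : ℝ → ℂ) :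
    QQ f = ∑' ρ : Zt, (mu ρ : ℝ) * ‖TT f ((ρ : ℂ) - 1 / 2)‖ ^ 2 := by
  unfold QQ
  exact tsum_congr fun ρ => by rw [GG_crit hRH]

lemma QQ_crit_nonneg (hRH : ∀ ρ : Zt, (ρ : ℂ).re = 1 / 2) (f : ℝ → ℂ) : 0 ≤ QQ f := by
  rw [QQ_crit hRH]
  exact tsum_nonneg fun ρ => by positivity

lemma Hn_shift {a : ℝ} {ν : ℕ∞} {f : ℝ → ℂ} (hf : F.Hn a ν f) {τ : ℝ} (hτ : |τ| ≤ 1) :
    F.Hn (a + 1) ⊤ (fun x => f (x - τ)) := by
  refine ⟨⟨?_, fun x hx => hf.1.2 _ ?_⟩, ?_, fun k hk => absurd hk (not_lt.2 le_top)⟩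
  · exact hf.1.1.comp_measurePreserving (measurePreserving_sub_right volume τ)
  · have := abs_sub_abs_le_abs_sub x τ
    linarith
  · refine hf.2.1.congr (Eventually.of_forall fun v => ?_)
    simp only
    rw [Q24.CD.TT_shift, norm_mul, Complex.norm_exp]
    have : ((v : ℂ) * Complex.I * (τ : ℂ)).re = 0 := by simp
    rw [this, Real.exp_zero, one_mul]

theorem posG : S_PosG := by
  intro D _ hRH a ν f ha hf hQ
  have ha1 : 0 < a + 1 := by linarith
  by_cases hN0 : N2 f = 0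
  · exact fun w => TT_zero_of_N2 ha hf.1 hN0 w
  have hNp : 0 < N2 f := lt_of_le_of_ne (N2_nonneg f) (Ne.symm hN0)
  -- all terms vanish
  have hdom : Dom f := ((Hd_iff ha f).1 hf.hd).2
  have hnn : ∀ ρ : Zt, 0 ≤ (mu ρ : ℝ) * ‖TT f ((ρ : ℂ) - 1 / 2)‖ ^ 2 := fun ρ => by positivity
  have h0 : ∑' ρ : Zt, (mu ρ : ℝ) * ‖TT f ((ρ : ℂ) - 1 / 2)‖ ^ 2 = 0 := by
    rw [← QQ_crit hRH]
    exact le_antisymm hQ (QQ_crit_nonneg hRH f)
  have hz : ∀ ρ : Zt, TT f ((ρ : ℂ) - 1 / 2) = 0 := by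
    intro ρ
    have hs : HasSum (fun ρ : Zt => (mu ρ : ℝ) * ‖TT f ((ρ : ℂ) - 1 / 2)‖ ^ 2) 0 := by
      have h1 := Summable.hasSum (f := fun ρ : Zt => (mu ρ : ℝ) * ‖TT f ((ρ : ℂ) - 1 / 2)‖ ^ 2) hdom
      rwa [h0] at h1
    have h1 := (hasSum_zero_iff_of_nonneg hnn).1 hs
    have h2 := congrFun h1 ρ
    simp only [Pi.zero_apply, mul_eq_zero] at h2
    have h3 : (mu ρ : ℝ) ≠ 0 := by
      have h5 : 1 ≤ mu (ρ : ℂ) := D.mpos _ ρ.2
      have h4 : mu (ρ : ℂ) ≠ 0 := by omega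
      exact_mod_cast h4
    have h4 := h2.resolve_left h3
    exact norm_eq_zero.1 (pow_eq_zero_iff two_ne_zero |>.1 h4)
  -- the bottom of the form is `0`
  have hQτ : ∀ τ : ℝ, QQ (fun x => f (x - τ)) = 0 := by
    intro τ
    rw [QQ_crit hRH]
    have : (fun ρ : Zt => (mu ρ : ℝ) * ‖TT (fun x => f (x - τ)) ((ρ : ℂ) - 1 / 2)‖ ^ 2) = fun _ => 0 := by
      funext ρ
      rw [Q24.CD.TT_shift, hz ρ]; simp
    rw [this, tsum_zero]
  have hG : F.Gn (a + 1) ⊤ = 0 := by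
    refine le_antisymm ?_ ?_
    · have hf0 : F.Hn (a + 1) ⊤ (fun x => f (x - 0)) := Hn_shift hf (τ := 0) (by simp)
      have hN' : N2 (fun x => f (x - 0)) = N2 f := by simp
      obtain ⟨c, hc⟩ : ∃ c : ℂ, c = ((1 / Real.sqrt (N2 f) : ℝ) : ℂ) := ⟨_, rfl⟩
      have hc2 : ‖c‖ ^ 2 = 1 / N2 f := by
        rw [hc, Complex.norm_real, Real.norm_eq_abs, sq_abs, div_pow, Real.sq_sqrt hNp.le, one_pow]
      refine csInf_le (F.Gn_bdd ha1) ⟨_, hf0.smul c, ?_, ?_⟩
      · rw [N2_smul, hc2, hN']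
        exact one_div_mul_cancel hNp.ne'
      · rw [QQ_smul, hQτ, mul_zero]
    · refine Real.sInf_nonneg ?_
      rintro r ⟨g, -, -, rfl⟩
      exact QQ_crit_nonneg hRH g
  -- the translates are ground states
  have hK : ∀ τ : ℝ, |τ| ≤ 1 → F.Kn (a + 1) ⊤ (fun x => f (x - τ)) := by
    intro τ hτ
    refine ⟨Hn_shift hf hτ, ?_⟩
    unfold bq
    rw [hG, hQτ]
    ring
  obtain ⟨e, N, w1, hdat⟩ := F.exists_data (ν := ⊤) ha1
  obtain ⟨p0, -, hp0⟩ := hdat.all ha1 (hK 0 (by simp))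
  obtain ⟨p1, -, hp1⟩ := hdat.all ha1 (hK 1 (by simp))
  have hE : Differentiable ℂ (TT e) := differentiable_TT hdat.mem.1.1
  have h0' : ∀ w, TT f w = p0.eval w * TT e w := by
    intro w
    have := hp0 w
    rw [Q24.CD.TT_shift] at this
    simpa using this
  have h1' : ∀ w, Complex.exp w * TT f w = p1.eval w * TT e w := by
    intro w
    have := hp1 w
    rw [Q24.CD.TT_shift] at this
    simpa using this
  -- the quotient of the two polynomials is the exponential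
  have hD : ∀ w, Complex.exp w * p0.eval w - p1.eval w = 0 := by
    by_contra hcon
    push Not at hcon
    obtain ⟨w0, hw0⟩ := hcon
    have hc : Continuous fun w : ℂ => Complex.exp w * p0.eval w - p1.eval w := by fun_prop
    have h2 : ∀ᶠ w in 𝓝 w0, Complex.exp w * p0.eval w - p1.eval w ≠ 0 := hc.continuousAt.eventually_ne hw0
    have h3 : TT e =ᶠ[𝓝 w0] 0 := by
      filter_upwards [h2] with w hw
      have h4 : (Complex.exp w * p0.eval w - p1.eval w) * TT e w = 0 := by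
        rw [sub_mul, mul_assoc, ← h0', h1', sub_self]
      exact (mul_eq_zero.1 h4).resolve_left hw
    have h4 : AnalyticOnNhd ℂ (TT e) Set.univ := fun z _ => hE.analyticAt z
    have h5 := h4.eqOn_zero_of_preconnected_of_eventuallyEq_zero isPreconnected_univ (Set.mem_univ w0) h3
    exact hdat.nz (h5 (Set.mem_univ w1))
  -- so it is `0`
  have hinj : Function.Injective (fun k : ℕ => (k : ℂ) * (2 * Real.pi * Complex.I)) := by
    intro k l hkl
    have h2 : (2 * Real.pi * Complex.I : ℂ) ≠ 0 := Complex.two_pi_I_ne_zero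
    have := mul_right_cancel₀ h2 hkl
    exact_mod_cast this
  have hp01 : p0 = p1 := by
    refine Polynomial.eq_of_infinite_eval_eq _ _ ?_
    refine Set.Infinite.mono ?_ (Set.infinite_range_of_injective hinj)
    rintro w ⟨k, rfl⟩
    have h2 := hD ((k : ℂ) * (2 * Real.pi * Complex.I))
    rw [Complex.exp_nat_mul_two_pi_mul_I, one_mul] at h2
    exact sub_eq_zero.1 h2
  have hp : p0 = 0 := by
    refine Polynomial.eq_of_infinite_eval_eq _ _ ?_
    have hinj2 : Function.Injective (fun k : ℕ => (((k : ℝ) + 1 : ℝ) : ℂ)) := by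
      intro k l hkl
      have h3 : ((k : ℝ) + 1 : ℝ) = (l : ℝ) + 1 := Complex.ofReal_injective hkl
      have h4 : (k : ℝ) = l := by linarith
      exact_mod_cast h4
    refine Set.Infinite.mono ?_ (Set.infinite_range_of_injective hinj2)
    rintro w ⟨k, rfl⟩
    have h2 := hD ((((k : ℝ) + 1 : ℝ) : ℂ))
    rw [← hp01, ← sub_one_mul] at h2
    have h3 : Complex.exp ((((k : ℝ) + 1 : ℝ) : ℂ)) - 1 ≠ 0 := by
      rw [← Complex.ofReal_exp]
      intro h4
      have h5 : Real.exp ((k : ℝ) + 1) - 1 = 0 := by exact_mod_cast h4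
      have h6 := Real.add_one_lt_exp (show (k : ℝ) + 1 ≠ 0 by positivity)
      have h7 : (0 : ℝ) ≤ k := Nat.cast_nonneg k
      linarith
    have h4 := (mul_eq_zero.1 h2).resolve_left h3
    simpa using h4
  intro w
  rw [h0', hp, Polynomial.eval_zero, zero_mul]

end Pool.Agent.Q247.CG
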