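import Pool.Agent.Q240.CG.Stm
import Pool.Agent.Q24.CD.SumZ

set_option autoImplicit false

/-!
# Project CG: `S_SumGG` (port of helper24's `Q24/CD/SumZ.lean` to zero data)
-/

open Polynomial Filter Topology Finset MeasureTheory

namespace Pool.Agent.Q247.CG

open Pool.Agent.Y23.G Pool.Agent.Q240.CD Pool.Agent.Q240.CG

variable [D : ZD]

/-- summability over the zeros of a function which is bounded by a function of the integer part of the ordinate -/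
lemma sum_gen (φ : ℤ → ℝ) (hφ : ∀ k, 0 ≤ φ k) (hs : Summable (fun k : ℤ => Lg k * φ k)) (F : Zt → ℝ)
    (hF0 : ∀ ρ, 0 ≤ F ρ) (hF : ∀ ρ : Zt, F ρ ≤ φ ⌊(ρ : ℂ).im⌋) : Summable (fun ρ : Zt => (mu ρ : ℝ) * F ρ) := by
  classical
  obtain ⟨C, hC, hcnt⟩ := cnt
  have hL : ∀ k : ℤ, 0 ≤ Lg (k : ℝ) := fun k => by linarith [one_le_Lg (k : ℝ)]
  refine summable_of_sum_le (c := C * ∑' k : ℤ, Lg k * φ k) (fun ρ => mul_nonneg (Nat.cast_nonneg _) (hF0 ρ)) fun S => ?_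
  have h1 : ∑ ρ ∈ S, (mu ρ : ℝ) * F ρ ≤ ∑ ρ ∈ S, (mu ρ : ℝ) * φ ⌊(ρ : ℂ).im⌋ :=
    Finset.sum_le_sum fun ρ _ => mul_le_mul_of_nonneg_left (hF ρ) (Nat.cast_nonneg _)
  have h2 : ∑ ρ ∈ S, (mu ρ : ℝ) * φ ⌊(ρ : ℂ).im⌋ = ∑ k ∈ S.image (fun ρ : Zt => ⌊(ρ : ℂ).im⌋),
      ∑ ρ ∈ S.filter (fun ρ : Zt => ⌊(ρ : ℂ).im⌋ = k), (mu ρ : ℝ) * φ ⌊(ρ : ℂ).im⌋ :=
    (Finset.sum_fiberwise_of_maps_to (fun s hs => Finset.mem_image_of_mem _ hs) _).symm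
  have h3 : ∀ k ∈ S.image (fun ρ : Zt => ⌊(ρ : ℂ).im⌋),
      ∑ ρ ∈ S.filter (fun ρ : Zt => ⌊(ρ : ℂ).im⌋ = k), (mu ρ : ℝ) * φ ⌊(ρ : ℂ).im⌋ ≤ C * (Lg k * φ k) := by
    intro k _
    have h4 : ∑ ρ ∈ S.filter (fun ρ : Zt => ⌊(ρ : ℂ).im⌋ = k), (mu ρ : ℝ) * φ ⌊(ρ : ℂ).im⌋ =
        (∑ ρ ∈ S.filter (fun ρ : Zt => ⌊(ρ : ℂ).im⌋ = k), (mu ρ : ℝ)) * φ k := by
      rw [Finset.sum_mul]
      refine Finset.sum_congr rfl fun ρ hρ => ?_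
      rw [Finset.mem_filter] at hρ
      rw [hρ.2]
    have h5 := hcnt k ((S.filter (fun ρ : Zt => ⌊(ρ : ℂ).im⌋ = k)).map (Function.Embedding.subtype _)) (by
      intro s hs
      rw [Finset.mem_map] at hs
      obtain ⟨u, hu, rfl⟩ := hs
      rw [Finset.mem_filter] at hu
      refine ⟨u.2, ?_⟩
      have h6 := Int.floor_le (u : ℂ).im
      have h7 := Int.lt_floor_add_one (u : ℂ).im
      rw [hu.2] at h6 h7
      show |(u : ℂ).im - k| ≤ 1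
      rw [abs_le]
      constructor <;> linarith)
    rw [Finset.sum_map] at h5
    have h6 : (∑ ρ ∈ S.filter (fun ρ : Zt => ⌊(ρ : ℂ).im⌋ = k), (mu ρ : ℝ)) ≤ C * Lg k := by
      have e : ((∑ ρ ∈ S.filter (fun ρ : Zt => ⌊(ρ : ℂ).im⌋ = k), mu ((Function.Embedding.subtype _) ρ) : ℕ) : ℝ) =
          ∑ ρ ∈ S.filter (fun ρ : Zt => ⌊(ρ : ℂ).im⌋ = k), (mu ρ : ℝ) := by push_cast; rfl
      rw [← e]; exact h5
    rw [h4]
    calc _ ≤ (C * Lg k) * φ k := mul_le_mul_of_nonneg_right h6 (hφ k)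
      _ = _ := by ring
  have h4 : ∑ k ∈ S.image (fun ρ : Zt => ⌊(ρ : ℂ).im⌋), C * (Lg k * φ k) ≤ C * ∑' k : ℤ, Lg k * φ k := by
    rw [← Finset.mul_sum]
    exact mul_le_mul_of_nonneg_left (hs.sum_le_tsum _ fun k _ => mul_nonneg (hL k) (hφ k)) hC.le
  calc _ ≤ _ := h1
    _ = _ := h2
    _ ≤ _ := Finset.sum_le_sum h3
    _ ≤ _ := h4

lemma zg_re (ρ : Zt) : (zg ρ).re = (ρ : ℂ).im := by
  unfold zg
  simp

lemma zg_im (ρ : Zt) : (zg ρ).im = -((ρ : ℂ).re - 1 / 2) := by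
  unfold zg
  simp

lemma I_zg (ρ : Zt) : Complex.I * zg ρ = (ρ : ℂ) - 1 / 2 := by
  unfold zg
  rw [← mul_assoc, mul_neg, Complex.I_mul_I, neg_neg, one_mul]

lemma zg_im_le (ρ : Zt) : |(zg ρ).im| ≤ 1 := by
  rw [zg_im, abs_neg]
  have := half_re ρ
  have e : ((ρ : ℂ) - 1 / 2).re = (ρ : ℂ).re - 1 / 2 := by simp
  rwa [e] at this

lemma floor_le_zg (ρ : Zt) : 1 + |((⌊(ρ : ℂ).im⌋ : ℤ) : ℝ)| ≤ 2 * (1 + ‖zg ρ‖) := by
  have h1 := Complex.abs_re_le_norm (zg ρ)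
  rw [zg_re] at h1
  have h2 := Int.floor_le (ρ : ℂ).im
  have h3 := Int.lt_floor_add_one (ρ : ℂ).im
  have h4 : |((⌊(ρ : ℂ).im⌋ : ℤ) : ℝ)| ≤ |(ρ : ℂ).im| + 1 := by
    rw [abs_le]
    constructor
    · have := neg_abs_le (ρ : ℂ).im
      linarith
    · have := le_abs_self (ρ : ℂ).im
      linarith
  have := norm_nonneg (zg ρ)
  linarith

lemma sumZ1 : Summable fun ρ : Zt => (mu ρ : ℝ) / (1 + ‖zg ρ‖) ^ (7 / 4 : ℝ) := by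
  have h := sum_gen (fun k => 4 * (1 + |(k : ℝ)|) ^ (-(7 / 4 : ℝ))) (fun k => by positivity) ?_
    (fun ρ => ((1 + ‖zg ρ‖) ^ (7 / 4 : ℝ))⁻¹) (fun ρ => by positivity) ?_
  · exact h.congr fun ρ => (div_eq_mul_inv _ _).symm
  · refine Summable.of_nonneg_of_le (fun k => ?_) (fun k => ?_) (Q24.CD.summable_int_54.mul_left 16)
    · have := one_le_Lg (k : ℝ)
      positivity
    · have h1 := Lg_le k
      have h2 : 0 < 1 + |(k : ℝ)| := by positivity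
      have h3 : (1 + |(k : ℝ)|) ^ (1 / 2 : ℝ) * (1 + |(k : ℝ)|) ^ (-(7 / 4 : ℝ)) = (1 + |(k : ℝ)|) ^ (-(5 / 4 : ℝ)) := by
        rw [← Real.rpow_add h2]; norm_num
      have h4 : 0 ≤ (1 + |(k : ℝ)|) ^ (-(7 / 4 : ℝ)) := by positivity
      calc Lg k * (4 * (1 + |(k : ℝ)|) ^ (-(7 / 4 : ℝ))) ≤
          (4 * (1 + |(k : ℝ)|) ^ (1 / 2 : ℝ)) * (4 * (1 + |(k : ℝ)|) ^ (-(7 / 4 : ℝ))) :=
            mul_le_mul_of_nonneg_right h1 (by positivity)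
        _ = 16 * ((1 + |(k : ℝ)|) ^ (1 / 2 : ℝ) * (1 + |(k : ℝ)|) ^ (-(7 / 4 : ℝ))) := by ring
        _ = _ := by rw [h3]
  · intro ρ
    have h1 := floor_le_zg ρ
    set K : ℝ := 1 + |((⌊(ρ : ℂ).im⌋ : ℤ) : ℝ)| with hK
    have hK0 : 0 < K := by positivity
    have hz : 0 < 1 + ‖zg ρ‖ := by positivity
    have h2 : K ^ (7 / 4 : ℝ) ≤ 4 * (1 + ‖zg ρ‖) ^ (7 / 4 : ℝ) := by
      calc K ^ (7 / 4 : ℝ) ≤ (2 * (1 + ‖zg ρ‖)) ^ (7 / 4 : ℝ) := Real.rpow_le_rpow hK0.le h1 (by norm_num)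
        _ = 2 ^ (7 / 4 : ℝ) * (1 + ‖zg ρ‖) ^ (7 / 4 : ℝ) := Real.mul_rpow (by norm_num) hz.le
        _ ≤ _ := by
            refine mul_le_mul_of_nonneg_right ?_ (by positivity)
            calc (2 : ℝ) ^ (7 / 4 : ℝ) ≤ 2 ^ (2 : ℝ) := Real.rpow_le_rpow_of_exponent_le (by norm_num) (by norm_num)
              _ = 4 := by norm_num
    show ((1 + ‖zg ρ‖) ^ (7 / 4 : ℝ))⁻¹ ≤ 4 * K ^ (-(7 / 4 : ℝ))
    rw [Real.rpow_neg hK0.le, ← div_eq_mul_inv, inv_eq_one_div, div_le_div_iff₀ (by positivity) (by positivity)]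
    linarith

lemma sumZ2 : Summable fun ρ : Zt => (mu ρ : ℝ) / (1 + ‖zg ρ‖) ^ 2 := by
  refine Summable.of_nonneg_of_le (fun ρ => by positivity) (fun ρ => ?_) sumZ1
  have hz : 1 ≤ 1 + ‖zg ρ‖ := by linarith [norm_nonneg (zg ρ)]
  refine div_le_div_of_nonneg_left (Nat.cast_nonneg _) (by positivity) ?_
  rw [← Real.rpow_natCast]
  exact Real.rpow_le_rpow_of_exponent_le hz (by norm_num)

theorem sumGG (hI : S_Inty1) : S_SumGG := by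
  intro D
  refine ⟨sumZ1, sumZ2, zg_im_le, fun a n p ha hp => ?_⟩
  obtain ⟨C, hC, hb⟩ := hI a n ha
  obtain ⟨D, hD, hd⟩ := Q24.CD.aeval_le p _ hp
  refine Summable.of_norm_bounded (sumZ2.mul_left (D * C)) fun ρ => ?_
  rw [norm_mul, Real.norm_natCast]
  have h1 : ‖(aeval (zg ρ) p * Sp a n (zg ρ) ^ 2).re‖ ≤ D * C * (1 / (1 + ‖zg ρ‖) ^ 2) := by
    rw [Real.norm_eq_abs]
    refine (Complex.abs_re_le_norm _).trans ?_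
    rw [norm_mul, norm_pow]
    have h2 : 0 < 1 + ‖zg ρ‖ := by positivity
    calc ‖aeval (zg ρ) p‖ * ‖Sp a n (zg ρ)‖ ^ 2 ≤ (D * (1 + ‖zg ρ‖) ^ (4 * n)) * (C / (1 + ‖zg ρ‖) ^ (4 * n + 2)) :=
          mul_le_mul (hd _) (hb _ (zg_im_le ρ)) (by positivity) (by positivity)
      _ = _ := by
          rw [pow_add]
          field_simp
  calc (mu ρ : ℝ) * ‖(aeval (zg ρ) p * Sp a n (zg ρ) ^ 2).re‖ ≤ (mu ρ : ℝ) * (D * C * (1 / (1 + ‖zg ρ‖) ^ 2)) :=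
        mul_le_mul_of_nonneg_left h1 (Nat.cast_nonneg _)
    _ = _ := by ring

end Pool.Agent.Q247.CG
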